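import Pool.Agent.helper82.UN.SpecP

set_option autoImplicit false

open NumberField Complex MeasureTheory nonZeroDivisors

namespace Pool.Agent.UN

theorem PNF_ee (x : ℝ) : ‖ee x‖ = 1 := by
  unfold ee
  exact Complex.norm_exp_ofReal_mul_I _

section
variable {K : Type} [Field K] [NumberField K]

theorem PNF_xw {ι : Type} [Fintype ι] (ω : ι → K) (r : K) (k : ι → ℤ) (x : K) (hx : x = ∑ i, (k i : K) * ω i) :
    xw ω r (zc k) = fun w => w.embedding (x + r) := by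
  funext w
  unfold xw zc
  rw [map_add, hx, map_sum]
  congr 1
  refine Finset.sum_congr rfl fun i _ => ?_
  rw [map_mul, map_intCast]
  push_cast
  rfl

theorem PNF_Ga (y : InfinitePlace K → ℝ) (x : K) : Gf y (fun w => w.embedding x) = Ga y x := by
  unfold Gf Ga
  simp only [InfinitePlace.norm_embedding_eq]

theorem PNF_ff {ι : Type} [Fintype ι] (m : InfinitePlace K → ℤ) (e : InfinitePlace K → ℕ) (y : InfinitePlace K → ℝ)
    (ω : ι → K) (r : K) (k : ι → ℤ) (x : K) (hx : x = ∑ i, (k i : K) * ω i) :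
    ff m e y ω r (zc k) = Pm m e (x + r) * (Ga y (x + r) : ℂ) := by
  unfold ff
  rw [PNF_xw ω r k x hx, PNF_Ga]
  rfl

theorem PNF_sum {ι : Type} [Fintype ι] (f : (ι → ℝ) → ℂ) (h : Dec f) : Summable fun k : ι → ℤ => ‖f (zc k)‖ := by
  obtain ⟨u, hu, hb⟩ := h
  refine Summable.of_nonneg_of_le (fun k => norm_nonneg _) (fun k => ?_) hu
  have h1 := hb k 0 (fun i => by simp)
  rwa [zero_add] at h1

end

theorem PNF (hPOI : POI_stmt) (hPDE : PDE_stmt) (hPFT : PFT_stmt) (hPDB : PDB_stmt) : PNF_stmt := by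
  classical
  intro K _ _ J r m e y hJ hm he hec hy
  have hJ0 : (J : FractionalIdeal (𝓞 K)⁰ K) ≠ 0 := FractionalIdeal.coeIdeal_ne_zero.2 hJ
  set A : (FractionalIdeal (𝓞 K)⁰ K)ˣ := Units.mk0 (J : FractionalIdeal (𝓞 K)⁰ K) hJ0 with hA
  have hAJ : (A : FractionalIdeal (𝓞 K)⁰ K) = (J : FractionalIdeal (𝓞 K)⁰ K) := Units.val_mk0 hJ0
  obtain ⟨⟨E, hE⟩, E', ω', hE'⟩ := hPDB K J A hAJ
  have hpd := hPDE K (Module.Free.ChooseBasisIndex ℤ A) (basisOfFractionalIdeal K A) (r : K) m e y hy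
  set f := ff m e y (fun i => basisOfFractionalIdeal K A i) (r : K) with hf
  obtain ⟨hcont, hdec⟩ := hpd
  have hfk : ∀ k, f (zc k) = Pm m e ((((E k : J) : 𝓞 K) + r : 𝓞 K) : K) *
      (Ga y ((((E k : J) : 𝓞 K) + r : 𝓞 K) : K) : ℂ) := by
    intro k
    rw [hf, PNF_ff m e y (fun i => basisOfFractionalIdeal K A i) (r : K) k (((E k : J) : 𝓞 K) : K) (hE k)]
    rfl
  have hsum1 : Summable fun k => f (zc k) := (PNF_sum f hdec).of_norm
  have hS1 : Summable (fun x : J => Pm m e (((x : 𝓞 K) + r : 𝓞 K) : K) * (Ga y (((x : 𝓞 K) + r : 𝓞 K) : K) : ℂ)) := by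
    rw [← E.summable_iff]
    refine hsum1.congr fun k => ?_
    exact hfk k
  have hy' : ∀ w, 0 < (fun w => 1 / y w) w := fun w => by
    have := hy w
    positivity
  have hpd2 := hPDE K (Module.Free.ChooseBasisIndex ℤ A) ω' 0 m e (fun w => 1 / y w) hy'
  have hfk2 : ∀ k, ff m e (fun w => 1 / y w) (fun i => ω' i) 0 (zc k) = Pm m e ((E' k : (Du J : Set K)) : K) *
      (Ga (fun w => 1 / y w) ((E' k : (Du J : Set K)) : K) : ℂ) := by
    intro k
    rw [PNF_ff m e (fun w => 1 / y w) (fun i => ω' i) 0 k ((E' k : (Du J : Set K)) : K) (hE' k).1, add_zero]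
  have hsum2 : Summable fun k => et (((E' k : (Du J : Set K)) : K) * (r : K)) *
      (starRingEnd ℂ) (Pm m e ((E' k : (Du J : Set K)) : K)) *
      (Ga (fun w => 1 / y w) ((E' k : (Du J : Set K)) : K) : ℂ) := by
    refine Summable.of_norm ?_
    refine (PNF_sum _ hpd2.2).congr fun k => ?_
    rw [hfk2, norm_mul, norm_mul, norm_mul, Complex.norm_conj]
    unfold et
    rw [PNF_ee, one_mul]
  have hS2 : Summable (fun ξ : Du J => et ((ξ : K) * (r : K)) * (starRingEnd ℂ) (Pm m e (ξ : K)) *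
    (Ga (fun w => 1 / y w) (ξ : K) : ℂ)) := by
    rw [← E'.summable_iff]
    exact hsum2
  have hFT : ∀ k, FT f k = (-I : ℂ) ^ (∑ w, aa m e w) / (((Dc K) ^ (1 / 2 : ℝ) * Nm J : ℝ) : ℂ) *
      ((∏ w : InfinitePlace K, (y w) ^ (-((w.mult : ℝ) / 2 + aa m e w)) : ℝ) : ℂ) *
      (et (((E' k : (Du J : Set K)) : K) * (r : K)) * (starRingEnd ℂ) (Pm m e ((E' k : (Du J : Set K)) : K)) *
        (Ga (fun w => 1 / y w) ((E' k : (Du J : Set K)) : K) : ℂ)) := by
    intro k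
    exact hPFT K J A hAJ (r : K) m e y hm he hec hy k ((E' k : (Du J : Set K)) : K) (hE' k).2
  have hFTs : Summable (FT f) := by
    have h1 := hsum2.mul_left ((-I : ℂ) ^ (∑ w, aa m e w) / (((Dc K) ^ (1 / 2 : ℝ) * Nm J : ℝ) : ℂ) *
      ((∏ w : InfinitePlace K, (y w) ^ (-((w.mult : ℝ) / 2 + aa m e w)) : ℝ) : ℂ))
    exact h1.congr fun k => (hFT k).symm
  refine ⟨hS1, hS2, ?_⟩
  have hP := hPOI (Module.Free.ChooseBasisIndex ℤ A) f hcont hdec hFTs 0
  have e1 : ∑' x : J, Pm m e (((x : 𝓞 K) + r : 𝓞 K) : K) * (Ga y (((x : 𝓞 K) + r : 𝓞 K) : K) : ℂ) =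
      ∑' k, f (0 + zc k) := by
    rw [← E.tsum_eq]
    refine tsum_congr fun k => ?_
    rw [zero_add, hfk]
  have e2 : ∑' ξ : Du J, et ((ξ : K) * (r : K)) * (starRingEnd ℂ) (Pm m e (ξ : K)) *
      (Ga (fun w => 1 / y w) (ξ : K) : ℂ) = ∑' k, et (((E' k : (Du J : Set K)) : K) * (r : K)) *
      (starRingEnd ℂ) (Pm m e ((E' k : (Du J : Set K)) : K)) *
      (Ga (fun w => 1 / y w) ((E' k : (Du J : Set K)) : K) : ℂ) := by
    rw [← E'.tsum_eq]
  rw [e1, hP, e2, ← tsum_mul_left]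
  refine tsum_congr fun k => ?_
  rw [hFT]
  have e3 : ee (∑ i, (k i : ℝ) * (0 : Module.Free.ChooseBasisIndex ℤ A → ℝ) i) = 1 := by
    simp [ee]
  rw [e3, mul_one]

end Pool.Agent.UN
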