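import Pool.Agent.helper82.UN.SpecP

set_option autoImplicit false

open NumberField Complex MeasureTheory nonZeroDivisors

namespace Pool.Agent.UN

theorem PTR_re (K : Type) [Field K] [NumberField K] (z : K) (φ : K →+* ℂ) :
    ((InfinitePlace.mk φ).embedding z).re = (φ z).re := by
  have h := InfinitePlace.mk_embedding (InfinitePlace.mk φ)
  rcases InfinitePlace.mk_eq_iff.1 h with h1 | h1
  · rw [h1]
  · have h2 : φ z = (starRingEnd ℂ) ((InfinitePlace.mk φ).embedding z) := by
      have h3 := congrArg (fun f : K →+* ℂ => f z) h1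
      simp only [ComplexEmbedding.conjugate_coe_eq] at h3
      exact h3.symm
    rw [h2, Complex.conj_re]

theorem PTR : PTR_stmt := by
  classical
  intro K _ _ z
  have h1 : (algebraMap ℚ ℂ) (Algebra.trace ℚ K z) = ∑ σ : K →ₐ[ℚ] ℂ, σ z :=
    trace_eq_sum_embeddings ℂ
  have h2 : ∑ σ : K →ₐ[ℚ] ℂ, σ z = ∑ φ : K →+* ℂ, φ z := by
    rw [← Fintype.sum_equiv (RingHom.equivRatAlgHom K ℂ) (fun f => f z) (fun φ => φ z) fun _ => by
      simp [RingHom.equivRatAlgHom_apply]]
  have h3 : ((Algebra.trace ℚ K z : ℚ) : ℝ) = ∑ φ : K →+* ℂ, (φ z).re := by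
    have h4 := congrArg Complex.re (h1.trans h2)
    rw [Complex.re_sum, eq_ratCast, Complex.ratCast_re] at h4
    exact h4
  rw [h3, ← Finset.sum_fiberwise Finset.univ InfinitePlace.mk (fun φ : K →+* ℂ => (φ z).re)]
  refine Finset.sum_congr rfl fun w _ => ?_
  have h5 : ∀ φ ∈ Finset.univ.filter (fun φ : K →+* ℂ => InfinitePlace.mk φ = w), (φ z).re = (w.embedding z).re := by
    intro φ hφ
    rw [← (Finset.mem_filter.mp hφ).2, PTR_re]
  rw [Finset.sum_congr rfl h5, Finset.sum_const, InfinitePlace.card_filter_mk_eq, nsmul_eq_mul]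

end Pool.Agent.UN
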